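import Pool.Agent.Helper33.QB.Frame

/-!
# Project QB: transport of the sentence along a bijection
-/

set_option autoImplicit false

namespace Pool.Agent.Helper33.QB

open Set

universe u v

section Transport

variable {O : Type u} {O' : Type v} (e : O ≃ O') {lt : O → O → Prop} {lt' : O' → O' → Prop}
  {S1 : Set (Set O)} {S1' : Set (Set O')} {S2 : Set (O → O → Prop)} {S2' : Set (O' → O' → Prop)}
  {S3 : Set (Set (Set O))} {S3' : Set (Set (Set O'))}

theorem h47_fin (hlt : ∀ x y, lt x y ↔ lt' (e x) (e y)) (y : O) :
    {z | lt z y}.Finite ↔ {z | lt' z (e y)}.Finite := by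
  have h : {z | lt' z (e y)} = e '' {z | lt z y} := by
    ext z
    constructor
    · intro hz
      refine ⟨e.symm z, ?_, e.apply_symm_apply z⟩
      change lt _ _
      rw [hlt, e.apply_symm_apply]
      exact hz
    · rintro ⟨x, hx, rfl⟩
      exact (hlt _ _).1 hx
  rw [h]
  constructor
  · exact fun h => h.image _
  · exact fun h => h.of_finite_image e.injective.injOn

theorem h47_ctb (hlt : ∀ x y, lt x y ↔ lt' (e x) (e y))
    (h2 : ∀ F ∈ S2, (fun x y => F (e.symm x) (e.symm y)) ∈ S2')
    (h2' : ∀ F ∈ S2', (fun x y => F (e x) (e y)) ∈ S2) (E : Set O') :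
    CtbIn lt S2 (e ⁻¹' E) ↔ CtbIn lt' S2' E := by
  constructor
  · rintro ⟨F, hF, ha, hb⟩
    refine ⟨_, h2 F hF, ?_, ?_⟩
    · intro x hx
      obtain ⟨y, hy, hxy⟩ := ha (e.symm x) (by simpa using hx)
      refine ⟨e y, (h47_fin e hlt y).1 hy, ?_⟩
      simpa using hxy
    · intro x hx x' hx' y h h'
      have := hb (e.symm x) (by simpa using hx) (e.symm x') (by simpa using hx') _ h h'
      exact e.symm.injective this
  · rintro ⟨F, hF, ha, hb⟩
    refine ⟨_, h2' F hF, ?_, ?_⟩
    · intro x hx
      obtain ⟨y, hy, hxy⟩ := ha (e x) hx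
      refine ⟨e.symm y, (h47_fin e hlt _).2 (by simpa using hy), ?_⟩
      simpa using hxy
    · intro x hx x' hx' y h h'
      exact e.injective (hb (e x) hx (e x') hx' _ h h')

/-- Transport of the sentence. -/
theorem h47_sent {a : O} (hlt : ∀ x y, lt x y ↔ lt' (e x) (e y))
    (h1 : ∀ E ∈ S1', e ⁻¹' E ∈ S1)
    (h2 : ∀ F ∈ S2, (fun x y => F (e.symm x) (e.symm y)) ∈ S2')
    (h2' : ∀ F ∈ S2', (fun x y => F (e x) (e y)) ∈ S2)
    (h3 : ∀ R ∈ S3, {K : Set O' | e ⁻¹' K ∈ R} ∈ S3') (hS : Sent lt a S1 S2 S3) :
    Sent lt' (e a) S1' S2' S3' := by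
  have hc := h47_ctb e hlt h2 h2'
  have hfun : ∀ f : O → O, (fun x y => y = f x) ∈ S2 →
      (fun x y => y = (e ∘ f ∘ e.symm) x) ∈ S2' := by
    intro f hf
    have := h2 _ hf
    convert this using 3 with x y
    change y = e (f (e.symm x)) ↔ _
    rw [e.symm_apply_eq]
  have hwo := hS.wo
  refine ⟨?_, ?_, ?_, ?_⟩
  · let r : lt' ≃r lt := ⟨e.symm, by
      intro x y
      rw [hlt, e.apply_symm_apply, e.apply_symm_apply]⟩
    exact r.toRelEmbedding.isWellOrder
  · intro x
    rw [← hc]
    have : e ⁻¹' {y | lt' y x} = {y | lt y (e.symm x)} := by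
      ext y
      change lt' (e y) x ↔ lt y _
      rw [hlt, e.apply_symm_apply]
    rw [this]
    exact hS.seg _
  · rw [← hc]
    exact hS.unc
  · obtain ⟨R, hR, r, hr, hRR, hra, hK, hl, hE⟩ := hS.alg
    refine ⟨_, h3 R hR, e ∘ r ∘ e.symm, hfun r hr, ?_, ?_, ?_, ?_, ?_⟩
    · exact
        { emp := hRR.emp
          un := fun K hK K' hK' => hRR.un _ hK _ hK'
          df := fun K hK K' hK' => hRR.df _ hK _ hK'
          cov := by
            intro x
            obtain ⟨K, hK, hx⟩ := hRR.cov (e.symm x)
            refine ⟨e.symm ⁻¹' K, ?_, hx⟩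
            change e ⁻¹' (e.symm ⁻¹' K) ∈ R
            rw [← preimage_comp]
            simpa using hK
          sep := by
            intro x y hxy
            obtain ⟨K, hK, hx, hy⟩ := hRR.sep (e.symm x) (e.symm y)
              (fun h => hxy (e.symm.injective h))
            refine ⟨e.symm ⁻¹' K, ?_, hx, hy⟩
            change e ⁻¹' (e.symm ⁻¹' K) ∈ R
            rw [← preimage_comp]
            simpa using hK
          top := by
            intro K hK hne
            obtain ⟨x, hx, hmax, hfin⟩ := hRR.top (e ⁻¹' K) hK (hne.preimage e.surjective)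
            refine ⟨e x, hx, ?_, ?_⟩
            · intro y hy h
              have h1 := hmax (e.symm y) (by simpa using hy)
              apply h1
              rw [hlt]
              simpa using h
            · have : {y | y ∈ K ∧ (e ∘ r ∘ e.symm) y = (e ∘ r ∘ e.symm) (e x)} =
                  e '' {y | y ∈ e ⁻¹' K ∧ r y = r x} := by
                ext y
                constructor
                · rintro ⟨hy, hy'⟩
                  refine ⟨e.symm y, ⟨by simpa using hy, ?_⟩, e.apply_symm_apply y⟩
                  simpa using hy'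
                · rintro ⟨z, ⟨hz, hz'⟩, rfl⟩
                  exact ⟨hz, by simpa using hz'⟩
              rw [this]
              exact hfin.image _
          ex := by
            intro K hK x hx β hβ
            obtain ⟨y, hy, hne, hlt'⟩ := hRR.ex (e ⁻¹' K) hK (e.symm x) (by simpa using hx)
              (e.symm β) (by rw [hlt, e.apply_symm_apply]; exact hβ)
            refine ⟨e y, hy, ?_, ?_⟩
            · rintro rfl
              exact hne (e.symm_apply_apply y).symm
            · intro h
              apply hlt'
              rw [hlt, e.apply_symm_apply]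
              simpa using h }
    · intro x
      exact (hlt _ _).1 (hra _)
    · intro K hK'
      rw [← hc]
      exact hK _ hK'
    · intro β hβ
      rw [← hc]
      have h := hl (e.symm β) (by rw [hlt, e.apply_symm_apply]; exact hβ)
      have : e ⁻¹' {x | (e ∘ r ∘ e.symm) x = β} = {x | r x = e.symm β} := by
        ext x
        change e (r (e.symm (e x))) = β ↔ r x = e.symm β
        rw [e.symm_apply_apply, e.eq_symm_apply]
      rw [this]
      exact h
    · intro E hES hcl hun
      rw [← hc] at hun
      obtain ⟨h, hh, hbij, him, hpre⟩ := hE (e ⁻¹' E) (h1 E hES) (by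
        intro x hx
        obtain ⟨K, hK, hxK, hKE⟩ := hcl (e x) hx
        refine ⟨e ⁻¹' K, hK, hxK, ?_⟩
        rw [← preimage_inter, hKE, preimage_empty]) hun
      have himg : ∀ K : Set O', e ⁻¹' ((e ∘ h ∘ e.symm) '' K) = h '' (e ⁻¹' K) := by
        intro K
        ext x
        constructor
        · rintro ⟨y, hy, hy'⟩
          refine ⟨e.symm y, by simpa using hy, ?_⟩
          exact e.injective hy'
        · rintro ⟨y, hy, rfl⟩
          exact ⟨e y, hy, by simp⟩
      have hinj : ∀ A B : Set O', e ⁻¹' A = e ⁻¹' B → A = B := fun A B h =>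
        (preimage_eq_preimage e.surjective).1 h
      refine ⟨e ∘ h ∘ e.symm, hfun h hh, ?_, ?_, ?_⟩
      · refine ⟨?_, ?_, ?_⟩
        · intro x _
          exact hbij.mapsTo (mem_univ _)
        · intro x _ y _ hxy
          exact e.symm.injective (hbij.injOn (mem_univ _) (mem_univ _) (e.injective hxy))
        · intro y hy
          obtain ⟨x, -, hx⟩ := hbij.surjOn (show e.symm y ∈ e ⁻¹' E by simpa using hy)
          refine ⟨e x, mem_univ _, ?_⟩
          change e (h (e.symm (e x))) = y
          rw [e.symm_apply_apply, hx, e.apply_symm_apply]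
      · intro K hK
        obtain ⟨K', hK', he⟩ := him (e ⁻¹' K) hK
        refine ⟨e.symm ⁻¹' K', ?_, ?_⟩
        · change e ⁻¹' (e.symm ⁻¹' K') ∈ R
          rw [← preimage_comp]
          simpa using hK'
        · apply hinj
          rw [himg, he, preimage_inter, ← preimage_comp]
          simp
      · intro K hK
        obtain ⟨K', hK', he⟩ := hpre (e ⁻¹' K) hK
        refine ⟨e.symm ⁻¹' K', ?_, ?_⟩
        · change e ⁻¹' (e.symm ⁻¹' K') ∈ R
          rw [← preimage_comp]
          simpa using hK'
        · apply hinj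
          rw [himg, ← preimage_comp, preimage_inter]
          simpa using he

end Transport

end Pool.Agent.Helper33.QB
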