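import Pool.Agent.Helper38.QB.Gd1
import Pool.Agent.Helper47.QB.TransferA

/-!
# Project QB: transfer of the sentence to the transitive model
-/

set_option autoImplicit false

namespace Pool.Agent.Helper33.QB

open Set Pool.Agent.Helper33.HMG Pool.Agent.Helper32.HB

section MD

variable {Ω : Type} [LinearOrder Ω] [WellFoundedLT Ω] {α : Ordinal.{0}} [Fact (Ind α)]
  {b : Ordinal.{0} → NmD Ω Ordinal.{0}} {R : Type}
  {W : R → (ℕ → Nm (CP Ω α b)) → CP Ω α b → Nm (CP Ω α b) → Prop} {a0 : Ω} {g : Gen W}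

/-- The members of the values of the check names of elements. -/
theorem h47_mem_ck (x : Ω) (z : ZFSet.{0}) :
    z ∈ g.val (ck x) ↔ ∃ y : Ω, y < x ∧ ck y ∈ g.N ∧ g.val (ck y) = z := by
  have e : (ck x : Nm (CP Ω α b)) =
      .mk (ULift.{1} {y : Ω // y < x}) (fun y => ck y.down.1) (fun _ => ⊤) := by
    unfold ck
    rw [ps_eq]
    rfl
  rw [e, g.mem_val]
  constructor
  · rintro ⟨⟨y, hy⟩, h1, -, h3⟩
    exact ⟨y, hy, h1, h3⟩
  · rintro ⟨y, hy, h1, h3⟩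
    exact ⟨⟨y, hy⟩, h1, ⟨0, le_top⟩, h3⟩

theorem h47_mem_ckS (K : Set Ω) (z : ZFSet.{0}) :
    z ∈ g.val (ckS K) ↔ ∃ y ∈ K, ck y ∈ g.N ∧ g.val (ck y) = z := by
  have e : (ckS K : Nm (CP Ω α b)) =
      .mk (ULift.{1} K) (fun y => ck y.down.1) (fun _ => ⊤) := rfl
  rw [e, g.mem_val]
  constructor
  · rintro ⟨⟨y, hy⟩, h1, -, h3⟩
    exact ⟨y, hy, h1, h3⟩
  · rintro ⟨y, hy, h1, h3⟩
    exact ⟨⟨y, hy⟩, h1, ⟨0, le_top⟩, h3⟩

theorem h47_lt_iff {x y : Ω} (hx : ck x ∈ g.N) (hy : ck y ∈ g.N) :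
    g.val (ck x) ∈ g.val (ck y) ↔ x < y := by
  have h1 : ∀ {x y : Ω}, ck x ∈ g.N → x < y → g.val (ck x) ∈ g.val (ck y) :=
    fun {x y} hx h => (h47_mem_ck y _).2 ⟨x, h, hx, rfl⟩
  constructor
  · intro h
    by_contra hc
    rcases (not_lt.1 hc).lt_or_eq with h2 | h2
    · exact ZFSet.mem_asymm h (h1 hy h2)
    · subst h2
      exact ZFSet.mem_irrefl _ h
  · exact h1 hx

theorem h47_inj {x y : Ω} (hx : ck x ∈ g.N) (hy : ck y ∈ g.N) (h : g.val (ck x) = g.val (ck y)) :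
    x = y := by
  rcases lt_trichotomy x y with h1 | h1 | h1
  · have := (h47_lt_iff hx hy).2 h1
    rw [h] at this
    exact absurd this (ZFSet.mem_irrefl _)
  · exact h1
  · have := (h47_lt_iff hy hx).2 h1
    rw [h] at this
    exact absurd this (ZFSet.mem_irrefl _)

/-- The elements of `OM g` as members of the value of the name of `Ω`. -/
noncomputable def h47_e (g : Gen W) : OM g ≃ Mem (g.val (ckS (univ : Set Ω))) :=
  Equiv.ofBijective (fun x => ⟨g.val (ck x.1), (h47_mem_ckS _ _).2 ⟨x.1, mem_univ _, x.2, rfl⟩⟩)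
    ⟨fun x y h => Subtype.ext (h47_inj x.2 y.2 (congrArg Subtype.val h)), by
      rintro ⟨z, hz⟩
      obtain ⟨y, -, hy, h⟩ := (h47_mem_ckS _ _).1 hz
      exact ⟨⟨y, hy⟩, Subtype.ext h⟩⟩

theorem h47_e_val (x : OM g) : (h47_e g x).1 = g.val (ck x.1) := rfl

omit [LinearOrder Ω] [WellFoundedLT Ω] in
theorem h47_val_up {σ τ : Nm (CP Ω α b)} (hσ : σ ∈ g.N) (hτ : τ ∈ g.N) :
    g.val (upairN σ τ) = {g.val σ, g.val τ} := by
  ext z
  rw [g.mem_val, ZFSet.mem_pair]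
  constructor
  · rintro ⟨⟨i⟩, h1, -, h3⟩
    change g.val (cond i σ τ) = z at h3
    cases i
    · exact Or.inr h3.symm
    · exact Or.inl h3.symm
  · rintro (h | h)
    · exact ⟨⟨true⟩, hσ, ⟨0, le_top⟩, h.symm⟩
    · exact ⟨⟨false⟩, hτ, ⟨0, le_top⟩, h.symm⟩

theorem h47_val_op (hg : Gd a0 g) {σ τ : Nm (CP Ω α b)} (hσ : σ ∈ g.N) (hτ : τ ∈ g.N) :
    g.val (opN σ τ) = ZFSet.pair (g.val σ) (g.val τ) := by
  unfold opN
  rw [h47_val_up (hg.up hσ hσ) (hg.up hσ hτ), h47_val_up hσ hσ, h47_val_up hσ hτ]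
  unfold ZFSet.pair
  rw [ZFSet.pair_eq_singleton]

/-- Transfer to the transitive model. -/
theorem Gd.transfer (hg : Gd a0 g)
    (hS : Sent (ltM g) ⟨a0, hg.ck_mem le_rfl⟩ (S1M g) (S2M g) (S3M g)) :
    ∃ w ∈ g.M, ∃ a : Mem w, w.IsOrdinal ∧ OrdT (memR w) a α ∧
      Sent (memR w) a (sets1 g.M w) (sets2 g.M w) (sets3 g.M w) := by
  have hlt : ∀ x y : OM g, ltM g x y ↔ memR _ (h47_e g x) (h47_e g y) := fun x y =>
    (h47_lt_iff x.2 y.2).symm
  have hpair : ∀ x y : OM g, ∀ τ ∈ g.N, (∃ k, fmem (opN (ck x.1) (ck y.1)) τ (g.pc k)) ↔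
      ZFSet.pair (h47_e g x).1 (h47_e g y).1 ∈ g.val τ := by
    intro x y τ hτ
    rw [g.mem_iff (hg.op x.2 y.2) hτ, h47_val_op hg x.2 y.2, h47_e_val, h47_e_val]
  refine ⟨g.val (ckS univ), ⟨_, hg.wN, rfl⟩, h47_e g ⟨a0, hg.ck_mem le_rfl⟩, ?_, ?_, ?_⟩
  · constructor
    · intro y hy z hz
      obtain ⟨x, -, hx, rfl⟩ := (h47_mem_ckS _ _).1 hy
      obtain ⟨x', hx', h1, rfl⟩ := (h47_mem_ck _ _).1 hz
      exact (h47_mem_ckS _ _).2 ⟨x', mem_univ _, h1, rfl⟩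
    · intro y z v hy hz hv
      obtain ⟨x, -, hx, rfl⟩ := (h47_mem_ckS _ _).1 hv
      obtain ⟨x', hx', h1, rfl⟩ := (h47_mem_ck _ _).1 hz
      obtain ⟨x'', hx'', h2, rfl⟩ := (h47_mem_ck _ _).1 hy
      exact (h47_mem_ck _ _).2 ⟨x'', hx''.trans hx', h2, rfl⟩
  · refine ⟨fun x => ot ((h47_e g).symm x).1, ⟨?_, ?_, ?_⟩, ?_⟩
    · intro x hx
      obtain ⟨x, rfl⟩ := (h47_e g).surjective x
      have h := (hlt _ _).2 hx
      change ot ((h47_e g).symm (h47_e g x)).1 < α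
      rw [Equiv.symm_apply_apply]
      exact lt_of_lt_of_eq ((Ordinal.typein_lt_typein (fun x y : Ω => x < y)).2 h) hg.ota
    · intro x _ y _ hxy
      apply (h47_e g).symm.injective
      apply Subtype.ext
      exact (Ordinal.typein_inj (fun x y : Ω => x < y)).1 hxy
    · intro β hβ
      have hβ' : β < ot a0 := by rw [hg.ota]; exact hβ
      have hβ2 : β < Ordinal.type (fun x y : Ω => x < y) :=
        hβ'.trans (Ordinal.typein_lt_type _ _)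
      obtain ⟨y, hy⟩ := Ordinal.typein_surj (fun x y : Ω => x < y) hβ2
      have hya : y < a0 := by
        rw [← hy] at hβ'
        exact Ordinal.typein_lt_typein (fun x y : Ω => x < y) |>.1 hβ'
      refine ⟨h47_e g ⟨y, hg.ck_mem hya.le⟩, (hlt _ _).1 hya, ?_⟩
      exact (congrArg (fun z : OM g => ot z.1) ((h47_e g).symm_apply_apply _)).trans hy
    · intro x y _ _
      obtain ⟨x, rfl⟩ := (h47_e g).surjective x
      obtain ⟨y, rfl⟩ := (h47_e g).surjective y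
      rw [← hlt]
      change _ ↔ ot ((h47_e g).symm (h47_e g x)).1 < ot ((h47_e g).symm (h47_e g y)).1
      rw [Equiv.symm_apply_apply, Equiv.symm_apply_apply]
      exact (Ordinal.typein_lt_typein (fun x y : Ω => x < y)).symm
  · refine h47_sent (h47_e g) hlt ?_ ?_ ?_ ?_ hS
    · rintro E ⟨e, ⟨τ, hτ, rfl⟩, hE⟩
      refine ⟨τ, hτ, fun x => ?_⟩
      rw [g.mem_iff x.2 hτ]
      exact (hE (h47_e g x)).symm
    · rintro F ⟨τ, hτ, hF⟩
      refine ⟨g.val τ, ⟨τ, hτ, rfl⟩, fun x y => ?_⟩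
      obtain ⟨x, rfl⟩ := (h47_e g).surjective x
      obtain ⟨y, rfl⟩ := (h47_e g).surjective y
      rw [← hpair x y τ hτ, ← hF]
      beta_reduce
      rw [Equiv.symm_apply_apply, Equiv.symm_apply_apply]
    · rintro F ⟨f, ⟨τ, hτ, rfl⟩, hF⟩
      refine ⟨τ, hτ, fun x y => ?_⟩
      rw [hpair x y τ hτ]
      exact (hF _ _).symm
    · rintro R' ⟨τ, hτ, ha, hR⟩
      refine ⟨g.val τ, ⟨τ, hτ, rfl⟩, ?_, ?_⟩
      · intro k hk z hz
        obtain ⟨i, hi, ⟨l, hl⟩, rfl⟩ := g.mem_val.1 hk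
        obtain ⟨j, hj, ⟨m, hm⟩, rfl⟩ := g.mem_val.1 hz
        obtain ⟨x, n, hx⟩ := ha _ hi l (fmem_child τ i hl) _ hj m (fmem_child _ j hm)
        rw [(g.eq_iff hj x.2).1 ⟨n, hx⟩]
        exact (h47_e g x).2
      · intro K
        change (h47_e g) ⁻¹' K ∈ R' ↔ _
        rw [hR]
        constructor
        · rintro ⟨σ, hσ, hk, hK⟩
          refine ⟨g.val σ, (g.mem_iff hσ hτ).1 hk, fun x => ?_⟩
          obtain ⟨x, rfl⟩ := (h47_e g).surjective x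
          rw [h47_e_val, ← g.mem_iff x.2 hσ, ← hK]
          rfl
        · rintro ⟨k, hk, hK⟩
          obtain ⟨i, hi, ⟨l, hl⟩, rfl⟩ := g.mem_val.1 hk
          refine ⟨_, hi, ⟨l, fmem_child τ i hl⟩, fun x => ?_⟩
          rw [g.mem_iff x.2 hi]
          exact (hK (h47_e g x)).symm

end MD

end Pool.Agent.Helper33.QB
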